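import Pool.Agent.N869.GK.StmM
import Pool.Agent.N195.GK.LAA

/-!
# Project GK, variant M, piece LAAM: assembly of the linear algebra, several curves
(helper723, after helper195 and helper588)
-/

set_option autoImplicit false
set_option linter.unusedVariables false
set_option linter.unusedSectionVars false

open scoped Classical

namespace Pool.Agent.N723.GK

open Finset
open Pool.Agent.N869.QT.L (prs ext Lc Fam)
open Pool.Agent.N869.GK (Gr V Par Ok Rk Hyp1 HypG Nm TT Sol Gk kap mom dot S_PAR S_ALTR S_AUTO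
  S_TOR S_KC S_SUB)
open Pool.Agent.N869.GK.M
open Pool.Agent.N195.GK (ext_recip hyp_mono hyp1_of hyp1_sub count_eq prod_sigma')

theorem mc2_sigma {I C : Type} [Fintype I] [Fintype C] (m : I × C → ℕ) (a : I) (k : C) :
    mc2 (fun x : (Σ b, Fin (m b)) => x.1.1) (fun x => x.1.2) a k = m (a, k) := by
  unfold mc2
  rw [Finset.card_filter, ← Finset.univ_sigma_univ, Finset.sum_sigma,
    Finset.sum_eq_single (a, k)]
  · simp
  · intro b _ hb
    refine Finset.sum_eq_zero fun x _ => ?_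
    rw [if_neg]
    rintro ⟨h1, h2⟩
    exact hb (Prod.ext h1 h2)
  · intro h
    exact absurd (Finset.mem_univ _) h

theorem t_LAAM : Pool.Agent.N869.GK.M.S_LAAM := by
  intro hMOM hINV hPAR hALTR hAUTO hTOR hKC hSUB r C _ D₀ D hOk e hRk I Q _ _ E hE ρ hρ ε hε
  obtain ⟨m₀, δ, hδ, hM⟩ := hINV (I × C) (fun b => e b.2) (fun b => ρ b.1 b.2)
    (fun b => hρ b.1 b.2) ε hε
  choose KK hKK using fun m : I × C → ℕ => hMOM r C D₀ D hOk (Σ b, Fin (m b)) I Q E
    (fun x => x.1.1) (fun x => x.1.2) hE δ hδ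
  obtain ⟨P, hP⟩ : ∃ P : Finset (I × C → ℕ),
      P = Fintype.piFinset fun _ : I × C => range (m₀ + 1) := ⟨_, rfl⟩
  refine ⟨P.sup KK + 1, ?_⟩
  intro U J _ _ _ W g lU lJ A B hyp
  have hpar : ∀ (α : prs J → ZMod 2) (b : I × C), ∃ k : ℕ, k % 2 = e b.2 % 2 ∧
      {x | Sol (D b.2) (Sum.elim lU lJ) (Nm D₀ lU lJ A B α) (TT W E g b.1) x}.ncard =
        2 ^ (k + 2) := by
    intro α b
    have h0 := hyp1_of (Nat.le_add_left 1 (P.sup KK)) hE hyp α b.1
    have h1 : Hyp1 (D b.2) (Sum.elim lU lJ) (Nm D₀ lU lJ A B α) (TT W E g b.1) :=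
      ⟨h0.all, h0.par, by
        intro i hi j hj hij
        rw [hOk.em b.2]
        exact h0.recip i hi j hj hij⟩
    obtain ⟨k, hk, hG⟩ := hPAR hALTR hAUTO hTOR hKC r (D b.2) (hOk.ok b.2) (e b.2) (hRk b.2)
      {i // i ∈ TT W E g b.1} _ _ (hyp1_sub h1)
    refine ⟨k, hk, ?_⟩
    have h2 := (hSUB r (D b.2) (U ⊕ J) {i // i ∈ TT W E g b.1} Subtype.val
      Subtype.val_injective (Sum.elim lU lJ) (Nm D₀ lU lJ A B α) (TT W E g b.1) univ (fun i => by
        constructor
        · intro hi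
          exact ⟨⟨i, hi⟩, Finset.mem_univ _, rfl⟩
        · rintro ⟨j, _, rfl⟩
          exact j.2)).1
    rw [h2]
    exact hG
  choose kk hkk1 hkk2 using hpar
  have hcardΩ : (Fintype.card (prs J → ZMod 2) : ℝ) = 2 ^ (prs J).card := by
    rw [Fintype.card_fun, ZMod.card, Fintype.card_coe]
    push_cast
    rfl
  have key := hM (prs J → ZMod 2) kk hkk1 ?_
  · rw [hcardΩ, Fintype.prod_prod_type] at key
    have h1 : (univ.filter fun α : prs J → ZMod 2 =>
          ∀ a k, Gk (D k) (Sum.elim lU lJ) (Nm D₀ lU lJ A B α) (ρ a k) (TT W E g a)) =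
        univ.filter fun α : prs J → ZMod 2 => ∀ b : I × C, kk α b = ρ b.1 b.2 := by
      apply Finset.filter_congr
      intro α _
      rw [Prod.forall]
      apply forall_congr'
      intro a
      apply forall_congr'
      intro k
      unfold Pool.Agent.N869.GK.Gk
      have h3 := hkk2 α (a, k)
      dsimp only at h3
      rw [h3]
      change 2 ^ (kk α (a, k) + 2) = 2 ^ (ρ a k + 2) ↔ kk α (a, k) = ρ a k
      constructor
      · intro h
        have h2 := Nat.pow_right_injective le_rfl h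
        omega
      · intro h
        rw [h]
    rw [h1]
    exact key
  · intro m hm
    have hmP : m ∈ P := by
      rw [hP, Fintype.mem_piFinset]
      intro i
      rw [Finset.mem_range]
      have := hm i
      omega
    have hyp2 : HypG D₀ (KK m) W E g lU lJ A B :=
      hyp_mono ((Finset.le_sup (f := KK) hmP).trans (by omega)) hyp
    have h1 := hKK m U J W g lU lJ A B hyp2
    have h2 := count_eq (Ω := prs J → ZMod 2) (ι := Σ b, Fin (m b))
      (X := (Fin 2 → Gr r) × (U ⊕ J → V))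
      (fun α x z => Sol (D x.1.2) (Sum.elim lU lJ) (Nm D₀ lU lJ A B α) (TT W E g x.1.1) z)
    have h3 : ∀ α : prs J → ZMod 2, ∏ x : (Σ b, Fin (m b)),
        {z | Sol (D x.1.2) (Sum.elim lU lJ) (Nm D₀ lU lJ A B α) (TT W E g x.1.1) z}.ncard =
        (∏ b, 4 ^ m b) * ∏ b, 2 ^ (m b * kk α b) := by
      intro α
      simp_rw [hkk2]
      rw [prod_sigma' m (fun b => 2 ^ (kk α b + 2)), ← Finset.prod_mul_distrib]
      apply Finset.prod_congr rfl
      intro b _
      rw [pow_add, mul_pow, ← pow_mul, mul_comm (kk α b), mul_comm]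
      norm_num
    have h4 := h2.trans ((Finset.sum_congr rfl fun α _ => h3 α).trans
      (Finset.mul_sum univ (fun α => ∏ b, 2 ^ (m b * kk α b)) (∏ b, 4 ^ m b)).symm)
    rw [hcardΩ]
    have h5 : |((∏ b, (4 : ℝ) ^ m b) * ∑ α, ∏ b, (2 : ℝ) ^ (m b * kk α b)) / 2 ^ (prs J).card -
        (∏ b, (4 : ℝ) ^ m b) * ∏ b, mom (m b)| ≤ δ := by
      have h6 : (((∏ b, 4 ^ m b) * ∑ α, ∏ b, 2 ^ (m b * kk α b) : ℕ) : ℝ) =
          (∏ b, (4 : ℝ) ^ m b) * ∑ α, ∏ b, (2 : ℝ) ^ (m b * kk α b) := by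
        push_cast
        rfl
      rw [← h6, ← h4, ← Finset.prod_mul_distrib, Fintype.prod_prod_type]
      simp_rw [mc2_sigma] at h1
      exact h1
    have h7 : (1 : ℝ) ≤ ∏ b, (4 : ℝ) ^ m b := by
      calc (1 : ℝ) = ∏ b : I × C, (1 : ℝ) := by simp
        _ ≤ _ := Finset.prod_le_prod (fun _ _ => zero_le_one)
          (fun b _ => one_le_pow₀ (by norm_num))
    have h8 : ((∏ b, (4 : ℝ) ^ m b) * ∑ α, ∏ b, (2 : ℝ) ^ (m b * kk α b)) / 2 ^ (prs J).card -
        (∏ b, (4 : ℝ) ^ m b) * ∏ b, mom (m b) = (∏ b, (4 : ℝ) ^ m b) *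
        ((∑ α, ∏ b, (2 : ℝ) ^ (m b * kk α b)) / 2 ^ (prs J).card - ∏ b, mom (m b)) := by
      ring
    rw [h8, abs_mul, abs_of_nonneg (by linarith)] at h5
    exact (le_mul_of_one_le_left (abs_nonneg _) h7).trans h5

end Pool.Agent.N723.GK
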