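import Pool.Agent.N869.GK.StmX

/-!
# Project GK, variant X, piece TRL: translation by a small element (helper723)
-/

set_option autoImplicit false
set_option linter.unusedVariables false

open scoped Classical

namespace Pool.Agent.N723.GK.TRL

open WeierstrassCurve
open Pool.Agent.N869.GK.X

variable {p : ℕ} [hp : Fact p.Prime]

theorem norm_int (n : ℤ) : ‖(n : ℚ_[p])‖ ≤ 1 := Padic.norm_int_le_one n

/-- the algebraic identity -/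
theorem ident {K : Type} [Field K] {a2 a4 a6 x y u w : K} (hxu : x - u ≠ 0)
    (hw : w ^ 2 = u ^ 3 + a2 * u ^ 2 + a4 * u + a6) :
    ((y + w) / (x - u)) ^ 2 - a2 - x - u - x =
      (2 * (y * w) + u * (a4 + 2 * a2 * x + 3 * x ^ 2) + (y ^ 2 + a6 - a2 * x ^ 2 - 2 * x ^ 3)) /
        (x - u) ^ 2 := by
  have h1 : (x - u) ^ 2 ≠ 0 := pow_ne_zero 2 hxu
  rw [eq_div_iff h1, div_pow]
  have h2 : ((y + w) ^ 2 / (x - u) ^ 2 - a2 - x - u - x) * (x - u) ^ 2 =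
      (y + w) ^ 2 - (a2 + 2 * x + u) * (x - u) ^ 2 := by
    field_simp
    ring
  rw [h2]
  linear_combination hw

theorem t_TRL : S_TRL := by
  intro p _ e1 e2 e3 _ _ _ x y h δ hδ
  obtain ⟨a2, ha2⟩ : ∃ a2 : ℤ, a2 = -(e1 + e2 + e3) := ⟨_, rfl⟩
  obtain ⟨a4, ha4⟩ : ∃ a4 : ℤ, a4 = e1 * e2 + e1 * e3 + e2 * e3 := ⟨_, rfl⟩
  obtain ⟨a6, ha6⟩ : ∃ a6 : ℤ, a6 = -(e1 * e2 * e3) := ⟨_, rfl⟩
  obtain ⟨A, hA⟩ : ∃ A : ℝ, A = ‖(a4 : ℚ_[p]) + 2 * a2 * x + 3 * x ^ 2‖ := ⟨_, rfl⟩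
  obtain ⟨B, hB⟩ : ∃ B : ℝ, B = ‖y ^ 2 + (a6 : ℚ_[p]) - a2 * x ^ 2 - 2 * x ^ 3‖ := ⟨_, rfl⟩
  have hA0 : 0 ≤ A := by rw [hA]; exact norm_nonneg _
  have hB0 : 0 ≤ B := by rw [hB]; exact norm_nonneg _
  obtain ⟨K, hK⟩ : ∃ K : ℝ, K = ‖y‖ + A + B := ⟨_, rfl⟩
  have hK0 : 0 ≤ K := by rw [hK]; positivity
  refine ⟨max (max 1 ‖x‖) ((K / δ) ^ 2), ?_⟩
  rintro _ ⟨u, w, hu, rfl, hC⟩
  have hu1 : 1 < ‖u‖ := (le_max_left _ _).trans_lt ((le_max_left _ _).trans_lt hC)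
  have hux : ‖x‖ < ‖u‖ := (le_max_right _ _).trans_lt ((le_max_left _ _).trans_lt hC)
  have huK : (K / δ) ^ 2 < ‖u‖ := (le_max_right _ _).trans_lt hC
  have hxu : x ≠ u := by
    rintro rfl
    exact lt_irrefl _ hux
  have hxu' : x - u ≠ 0 := sub_ne_zero.2 hxu
  -- the equation
  have hw : w ^ 2 = u ^ 3 + (a2 : ℚ_[p]) * u ^ 2 + a4 * u + a6 := by
    have h1 := (Affine.equation_iff _ _).1 hu.1
    simp only [Wk] at h1
    rw [ha2, ha4, ha6]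
    push_cast
    linear_combination h1
  have hwn : ‖w‖ ^ 2 ≤ ‖u‖ ^ 3 := by
    rw [← norm_pow, ← norm_pow, hw]
    have hun : ∀ k : ℕ, k ≤ 3 → ‖u ^ k‖ ≤ ‖u ^ 3‖ := by
      intro k hk
      rw [norm_pow, norm_pow]
      exact pow_le_pow_right₀ hu1.le hk
    have hmul : ∀ (a : ℤ) (k : ℕ), k ≤ 3 → ‖(a : ℚ_[p]) * u ^ k‖ ≤ ‖u ^ 3‖ := by
      intro a k hk
      rw [norm_mul]
      calc ‖(a : ℚ_[p])‖ * ‖u ^ k‖ ≤ 1 * ‖u ^ 3‖ :=
            mul_le_mul (norm_int a) (hun k hk) (norm_nonneg _) zero_le_one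
        _ = ‖u ^ 3‖ := one_mul _
    have e1 : ‖u ^ 3 + (a2 : ℚ_[p]) * u ^ 2‖ ≤ ‖u ^ 3‖ :=
      (Padic.nonarchimedean _ _).trans (max_le le_rfl (hmul a2 2 (by norm_num)))
    have e2 : ‖u ^ 3 + (a2 : ℚ_[p]) * u ^ 2 + a4 * u‖ ≤ ‖u ^ 3‖ := by
      have h3 := hmul a4 1 (by norm_num)
      rw [pow_one] at h3
      exact (Padic.nonarchimedean _ _).trans (max_le e1 h3)
    have h4 := hmul a6 0 (by norm_num)
    rw [pow_zero, mul_one] at h4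
    exact (Padic.nonarchimedean _ _).trans (max_le e2 h4)
  have hden : ‖x - u‖ = ‖u‖ := by
    have h1 := Padic.add_eq_max_of_ne (p := p) (q := x) (r := -u) (by
      rw [norm_neg]; exact hux.ne)
    rw [← sub_eq_add_neg, norm_neg, max_eq_right hux.le] at h1
    exact h1
  -- the point
  have hadd : Affine.Point.some x y h - Affine.Point.some u w hu =
      Affine.Point.some x y h + Affine.Point.some u _ ((Affine.nonsingular_neg ..).mpr hu) := by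
    rw [sub_eq_add_neg, Affine.Point.neg_some]
  rw [Affine.Point.add_of_X_ne hxu] at hadd
  refine ⟨_, _, _, hadd, ?_⟩
  rw [Affine.slope_of_X_ne hxu]
  have hX : (Wk (e1 : ℚ_[p]) e2 e3).toAffine.addX x u
      ((y - (Wk (e1 : ℚ_[p]) e2 e3).toAffine.negY u w) / (x - u)) - x =
      ((y + w) / (x - u)) ^ 2 - (a2 : ℚ_[p]) - x - u - x := by
    simp only [Affine.addX, Affine.negY, Wk]
    rw [ha2]
    push_cast
    ring
  rw [hX, ident hxu' hw, norm_div, norm_pow, hden]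
  have hu0 : 0 < ‖u‖ := zero_lt_one.trans hu1
  obtain ⟨t, ht⟩ : ∃ t : ℝ, t = √‖u‖ := ⟨_, rfl⟩
  have ht2 : t ^ 2 = ‖u‖ := by rw [ht]; exact Real.sq_sqrt hu0.le
  have ht0 : 0 < t := by rw [ht]; exact Real.sqrt_pos.2 hu0
  have ht1 : 1 ≤ t := by
    rw [ht, Real.one_le_sqrt]
    exact hu1.le
  have hwt : ‖w‖ ≤ t ^ 3 := by
    rw [← ht2] at hwn
    have h5 : ‖w‖ ^ 2 ≤ (t ^ 3) ^ 2 := by
      calc ‖w‖ ^ 2 ≤ (t ^ 2) ^ 3 := hwn
        _ = (t ^ 3) ^ 2 := by ring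
    exact (pow_le_pow_iff_left₀ (norm_nonneg _) (by positivity) two_ne_zero).1 h5
  have hnum : ‖2 * (y * w) + u * ((a4 : ℚ_[p]) + 2 * a2 * x + 3 * x ^ 2) +
      (y ^ 2 + a6 - a2 * x ^ 2 - 2 * x ^ 3)‖ ≤ ‖y‖ * ‖w‖ + ‖u‖ * A + B := by
    refine (norm_add_le _ _).trans (add_le_add ((norm_add_le _ _).trans (add_le_add ?_ ?_)) ?_)
    · rw [norm_mul, norm_mul]
      have h2 : ‖(2 : ℚ_[p])‖ ≤ 1 := by
        have := norm_int (p := p) 2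
        simpa using this
      calc ‖(2 : ℚ_[p])‖ * (‖y‖ * ‖w‖) ≤ 1 * (‖y‖ * ‖w‖) :=
            mul_le_mul_of_nonneg_right h2 (by positivity)
        _ = ‖y‖ * ‖w‖ := one_mul _
    · rw [norm_mul, hA]
    · rw [hB]
  have hfin : ‖y‖ * ‖w‖ + ‖u‖ * A + B ≤ K * t ^ 3 := by
    rw [hK, ← ht2]
    have h6 : t ^ 2 ≤ t ^ 3 := pow_le_pow_right₀ ht1 (by norm_num)
    have h7 : 1 ≤ t ^ 3 := one_le_pow₀ ht1
    have h8 : ‖y‖ * ‖w‖ ≤ ‖y‖ * t ^ 3 := mul_le_mul_of_nonneg_left hwt (norm_nonneg _)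
    have h9 : t ^ 2 * A ≤ t ^ 3 * A := mul_le_mul_of_nonneg_right h6 hA0
    have h10 : B ≤ t ^ 3 * B := le_mul_of_one_le_left hB0 h7
    linarith
  have hKt : K < δ * t := by
    rw [← ht2] at huK
    have h11 : K / δ < t := lt_of_pow_lt_pow_left₀ 2 ht0.le huK
    rw [div_lt_iff₀ hδ] at h11
    linarith
  rw [← ht2]
  calc _ ≤ K * t ^ 3 / (t ^ 2) ^ 2 := by
        apply div_le_div_of_nonneg_right (hnum.trans hfin) (by positivity)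
    _ = K / t := by
        field_simp
    _ < δ := by
        rw [div_lt_iff₀ ht0]
        exact hKt

end Pool.Agent.N723.GK.TRL
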